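import Pool.Agent.helper41.G5.Spec

/-! # DH5: HF: Hoeffding for signs (helper77) -/

namespace DH5

open Finset

/-- the exponential moment. -/
theorem HF_mgf {E : Type} [Fintype E] [DecidableEq E] (w : E → ℝ) (l W : ℝ) (hW : ∑ e, w e ^ 2 ≤ W) :
    ∑ ε : E → Bool, Real.exp (l * ∑ e, sg (ε e) * w e) ≤ 2 ^ Fintype.card E * Real.exp (l ^ 2 * W / 2) := by
  have h1 : ∑ ε : E → Bool, Real.exp (l * ∑ e, sg (ε e) * w e) = ∏ e : E, ∑ b : Bool, Real.exp (l * (sg b * w e)) := by
    rw [Finset.prod_univ_sum, Fintype.piFinset_univ]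
    refine Finset.sum_congr rfl fun ε _ => ?_
    rw [Finset.mul_sum, Real.exp_sum]
  rw [h1]
  have h2 : ∀ e : E, ∑ b : Bool, Real.exp (l * (sg b * w e)) ≤ 2 * Real.exp ((l * w e) ^ 2 / 2) := by
    intro e
    have h3 := Real.cosh_le_exp_half_sq (l * w e)
    rw [Real.cosh_eq] at h3
    rw [Fintype.sum_bool]
    have h4 : Real.exp (l * (sg true * w e)) = Real.exp (l * w e) := by simp [sg]
    have h5 : Real.exp (l * (sg false * w e)) = Real.exp (-(l * w e)) := by simp [sg]
    rw [h4, h5]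
    linarith
  calc ∏ e : E, ∑ b : Bool, Real.exp (l * (sg b * w e)) ≤ ∏ e : E, 2 * Real.exp ((l * w e) ^ 2 / 2) :=
        Finset.prod_le_prod (fun e _ => Finset.sum_nonneg fun b _ => (Real.exp_pos _).le) fun e _ => h2 e
    _ = 2 ^ Fintype.card E * Real.exp (∑ e : E, (l * w e) ^ 2 / 2) := by
        rw [Finset.prod_mul_distrib, Finset.prod_const, Finset.card_univ, Real.exp_sum]
    _ ≤ 2 ^ Fintype.card E * Real.exp (l ^ 2 * W / 2) := by
        apply mul_le_mul_of_nonneg_left _ (by positivity)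
        apply Real.exp_le_exp.2
        have h6 : ∑ e : E, (l * w e) ^ 2 / 2 = l ^ 2 / 2 * ∑ e, w e ^ 2 := by
          rw [Finset.mul_sum]
          exact Finset.sum_congr rfl fun e _ => by ring
        rw [h6]
        have h7 : l ^ 2 / 2 * ∑ e, w e ^ 2 ≤ l ^ 2 / 2 * W := mul_le_mul_of_nonneg_left hW (by positivity)
        linarith

theorem HF_one {E : Type} [Fintype E] (w : E → ℝ) (u W : ℝ) (hu : 0 ≤ u) (hW0 : 0 < W) (hW : ∑ e, w e ^ 2 ≤ W) :
    (Set.ncard {ε : E → Bool | u < ∑ e, sg (ε e) * w e} : ℝ) ≤ Real.exp (-(u ^ 2 / (2 * W))) * 2 ^ Fintype.card E := by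
  classical
  have h1 := HF_mgf w (u / W) W hW
  have h2 : {ε : E → Bool | u < ∑ e, sg (ε e) * w e} = ((Finset.univ.filter fun ε : E → Bool => u < ∑ e, sg (ε e) * w e : Finset (E → Bool)) : Set (E → Bool)) := by
    ext ε
    simp
  rw [h2, Set.ncard_coe_finset]
  have h3 : ((Finset.univ.filter fun ε : E → Bool => u < ∑ e, sg (ε e) * w e).card : ℝ) * Real.exp (u / W * u) ≤
      ∑ ε : E → Bool, Real.exp (u / W * ∑ e, sg (ε e) * w e) := by
    calc ((Finset.univ.filter fun ε : E → Bool => u < ∑ e, sg (ε e) * w e).card : ℝ) * Real.exp (u / W * u)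
        = ∑ _ε ∈ Finset.univ.filter fun ε : E → Bool => u < ∑ e, sg (ε e) * w e, Real.exp (u / W * u) := by
          rw [Finset.sum_const, nsmul_eq_mul]
      _ ≤ ∑ ε ∈ Finset.univ.filter fun ε : E → Bool => u < ∑ e, sg (ε e) * w e, Real.exp (u / W * ∑ e, sg (ε e) * w e) := by
          refine Finset.sum_le_sum fun ε hε => ?_
          rw [Finset.mem_filter] at hε
          apply Real.exp_le_exp.2
          exact mul_le_mul_of_nonneg_left hε.2.le (by positivity)
      _ ≤ ∑ ε : E → Bool, Real.exp (u / W * ∑ e, sg (ε e) * w e) :=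
          Finset.sum_le_sum_of_subset_of_nonneg (Finset.filter_subset _ _) fun ε _ _ => (Real.exp_pos _).le
  have h4 : Real.exp (-(u ^ 2 / (2 * W))) = Real.exp ((u / W) ^ 2 * W / 2) / Real.exp (u / W * u) := by
    rw [← Real.exp_sub]
    congr 1
    field_simp
    ring
  rw [h4, div_mul_eq_mul_div, le_div_iff₀ (Real.exp_pos _)]
  refine (h3.trans h1).trans (le_of_eq ?_)
  rw [mul_comm]

theorem HF : HF_stmt := by
  intro E _ w u W hu hW0 hW
  have h1 := HF_one w u W hu hW0 hW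
  have h2 := HF_one (fun e => - w e) u W hu hW0 (by simpa using hW)
  have h3 : {ε : E → Bool | u < |∑ e, sg (ε e) * w e|} ⊆ {ε : E → Bool | u < ∑ e, sg (ε e) * w e} ∪ {ε : E → Bool | u < ∑ e, sg (ε e) * - w e} := by
    intro ε hε
    have hε' : u < |∑ e, sg (ε e) * w e| := hε
    rcases lt_abs.1 hε' with h | h
    · exact Or.inl h
    · refine Or.inr ?_
      show u < ∑ e, sg (ε e) * - w e
      have e1 : ∑ e, sg (ε e) * - w e = - ∑ e, sg (ε e) * w e := by
        rw [← Finset.sum_neg_distrib]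
        exact Finset.sum_congr rfl fun e _ => by ring
      rw [e1]
      exact h
  have h4 := Set.ncard_le_ncard h3 (Set.toFinite _)
  have h5 := Set.ncard_union_le {ε : E → Bool | u < ∑ e, sg (ε e) * w e} {ε : E → Bool | u < ∑ e, sg (ε e) * - w e}
  have h6 : (Set.ncard {ε : E → Bool | u < |∑ e, sg (ε e) * w e|} : ℝ) ≤
      (Set.ncard {ε : E → Bool | u < ∑ e, sg (ε e) * w e} : ℝ) + (Set.ncard {ε : E → Bool | u < ∑ e, sg (ε e) * - w e} : ℝ) := by
    exact_mod_cast h4.trans h5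
  linarith

end DH5
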