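import Pool.Agent.helper41.G5.Spec

/-! # DH5: TR: the trace of a power of `aᵀ a` (helper77) -/

namespace DH5

open Finset

/-- the bilinear bound gives the operator bound. -/
theorem TR_step {Z J : Type} [Fintype Z] [Fintype J] (a : Matrix Z J ℝ) (B : ℝ) (h : BB a B) (x : J → ℝ) :
    ∑ z, (a.mulVec x) z ^ 2 ≤ B ^ 2 * ∑ j, x j ^ 2 := by
  obtain ⟨y, hy⟩ : ∃ y : Z → ℝ, y = a.mulVec x := ⟨_, rfl⟩
  rw [← hy]
  have h1 : ∑ z, ∑ j, y z * a z j * x j = ∑ z, y z ^ 2 := by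
    refine Finset.sum_congr rfl fun z _ => ?_
    have h2 : y z = ∑ j, a z j * x j := by rw [hy]; rfl
    calc ∑ j, y z * a z j * x j = y z * ∑ j, a z j * x j := by
          rw [Finset.mul_sum]
          exact Finset.sum_congr rfl fun j _ => by ring
      _ = y z ^ 2 := by rw [← h2]; ring
  have h3 := h x y
  rw [h1] at h3
  have hN : 0 ≤ ∑ z, y z ^ 2 := Finset.sum_nonneg fun z _ => sq_nonneg _
  have hX : 0 ≤ ∑ j, x j ^ 2 := Finset.sum_nonneg fun j _ => sq_nonneg _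
  rw [abs_of_nonneg hN] at h3
  rcases hN.eq_or_lt with h0 | h0
  · rw [← h0]
    positivity
  · have h4 : (∑ z, y z ^ 2) ^ 2 ≤ (B * √((∑ z, y z ^ 2) * ∑ j, x j ^ 2)) ^ 2 := by
      apply pow_le_pow_left₀ hN h3
    rw [mul_pow, Real.sq_sqrt (mul_nonneg hN hX)] at h4
    have h5 : (∑ z, y z ^ 2) * (∑ z, y z ^ 2) ≤ (∑ z, y z ^ 2) * (B ^ 2 * ∑ j, x j ^ 2) := by nlinarith
    exact le_of_mul_le_mul_left h5 h0

theorem TR_transpose {Z J : Type} [Fintype Z] [Fintype J] (a : Matrix Z J ℝ) (B : ℝ) (h : BB a B) : BB a.transpose B := by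
  intro x y
  have h1 := h y x
  rw [mul_comm (∑ z, y z ^ 2)]
  rw [Finset.sum_comm]
  have h2 : ∑ z, ∑ j, y j * a.transpose j z * x z = ∑ z, ∑ j, x z * a z j * y j := by
    refine Finset.sum_congr rfl fun z _ => Finset.sum_congr rfl fun j _ => ?_
    show y j * a z j * x z = _
    ring
  rw [h2]
  exact h1

theorem TR_pow {Z J : Type} [Fintype Z] [Fintype J] [DecidableEq J] (a : Matrix Z J ℝ) (B : ℝ) (h : BB a B) (t : ℕ) (x : J → ℝ) :
    ∑ j, (((a.transpose * a) ^ t).mulVec x) j ^ 2 ≤ (B ^ (2 * t)) ^ 2 * ∑ j, x j ^ 2 := by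
  induction t generalizing x with
  | zero => simp
  | succ t ih =>
    rw [pow_succ, ← Matrix.mulVec_mulVec]
    refine (ih _).trans ?_
    have h1 : ∑ j, ((a.transpose * a).mulVec x) j ^ 2 ≤ B ^ 2 * (B ^ 2 * ∑ j, x j ^ 2) := by
      rw [← Matrix.mulVec_mulVec]
      refine (TR_step a.transpose B (TR_transpose a B h) _).trans ?_
      exact mul_le_mul_of_nonneg_left (TR_step a B h x) (by positivity)
    calc (B ^ (2 * t)) ^ 2 * ∑ j, ((a.transpose * a).mulVec x) j ^ 2 ≤ (B ^ (2 * t)) ^ 2 * (B ^ 2 * (B ^ 2 * ∑ j, x j ^ 2)) :=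
          mul_le_mul_of_nonneg_left h1 (by positivity)
      _ = (B ^ (2 * (t + 1))) ^ 2 * ∑ j, x j ^ 2 := by ring

theorem TR : TR_stmt := by
  intro Z J _ _ _ a B t hB h
  unfold Matrix.trace
  have h1 : ∀ j : J, Matrix.diag ((a.transpose * a) ^ t) j ≤ B ^ (2 * t) := by
    intro j
    have h2 := TR_pow a B h t (Pi.single j 1)
    have h3 : ∑ i, (Pi.single j (1 : ℝ) : J → ℝ) i ^ 2 = 1 := by
      rw [Finset.sum_eq_single j]
      · simp
      · intro i _ hij
        rw [Pi.single_eq_of_ne hij]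
        norm_num
      · intro hj
        exact absurd (Finset.mem_univ j) hj
    rw [h3, mul_one] at h2
    have h4 : (((a.transpose * a) ^ t).mulVec (Pi.single j 1)) j = ((a.transpose * a) ^ t) j j := by
      simp
    have h5 : (((a.transpose * a) ^ t) j j) ^ 2 ≤ ∑ i, (((a.transpose * a) ^ t).mulVec (Pi.single j 1)) i ^ 2 := by
      rw [← h4]
      exact Finset.single_le_sum (f := fun i => (((a.transpose * a) ^ t).mulVec (Pi.single j 1)) i ^ 2) (fun i _ => sq_nonneg _) (Finset.mem_univ j)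
    have h6 := h5.trans h2
    have h7 := abs_le_of_sq_le_sq h6 (by positivity)
    exact (le_abs_self _).trans h7
  calc ∑ j, Matrix.diag ((a.transpose * a) ^ t) j ≤ ∑ _j : J, B ^ (2 * t) := Finset.sum_le_sum fun j _ => h1 j
    _ = Fintype.card J * B ^ (2 * t) := by
        rw [Finset.sum_const, Finset.card_univ, nsmul_eq_mul]

end DH5
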